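import Pool.Agent.H51.MFM.S

set_option autoImplicit false

open Module MvPolynomial

namespace Pool.MFM

open Pool.MFQ

theorem t_ce2 : CE2Stmt := by
  intro R U ι _ _ _ _ e t ht he
  let S : Subalgebra ℂ U := Algebra.adjoin ℂ (Set.range e ∪ Set.range t)
  let _ : CommRing S := Algebra.adjoinCommRingOfComm ℂ (by
    rintro _ (⟨a, rfl⟩ | ⟨a, rfl⟩) _ (⟨b, rfl⟩ | ⟨b, rfl⟩)
    · rw [← map_mul, mul_comm, map_mul]
    · exact (he b a).symm
    · exact he a b
    · exact ht a b)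
  let f : R →ₐ[ℂ] S := e.codRestrict S fun r => Algebra.subset_adjoin (Or.inl ⟨r, rfl⟩)
  let _ : Algebra R S := f.toRingHom.toAlgebra
  have : IsScalarTower ℂ R S := IsScalarTower.of_algebraMap_eq fun r => (f.commutes r).symm
  let g : MvPolynomial ι R →ₐ[ℂ] S :=
    (aeval (fun a => (⟨t a, Algebra.subset_adjoin (Or.inr ⟨a, rfl⟩)⟩ : S)) :
      MvPolynomial ι R →ₐ[R] S).restrictScalars ℂ
  refine ⟨S.val.comp g, fun c => ?_, fun a => ?_, fun p q => ?_⟩
  · rw [AlgHom.comp_apply]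
    have : g (C c) = f c := aeval_C _ c
    rw [this]
    rfl
  · rw [AlgHom.comp_apply]
    have : g (X a) = (⟨t a, Algebra.subset_adjoin (Or.inr ⟨a, rfl⟩)⟩ : S) := aeval_X _ a
    rw [this]
    rfl
  · rw [← map_mul, mul_comm, map_mul]

end Pool.MFM
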