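import Pool.Agent.H51.MFM.S
import Pool.Agent.H85.MFQ.COM

set_option autoImplicit false

open Module MvPolynomial

namespace Pool.MFM

open Pool.MFQ

theorem t_dsi : DSIStmt := by
  intro E κ _ _ _ A a η f hη hf
  obtain ⟨hfa, hinv⟩ := hf
  refine ⟨⟨?_, ?_⟩, fun k t => COMaux.fderiv_tayE hfa k t η⟩
  · exact ((ContinuousLinearMap.apply ℂ ℂ η).analyticAt _).comp hfa.fderiv
  · filter_upwards [eventually_eventually_nhds.2 hinv, hfa.eventually_analyticAt] with ξ h1 h2 i
    have hd : DifferentiableAt ℂ (fderiv ℂ f) ξ := h2.fderiv.differentiableAt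
    -- derivative of `x ↦ fderiv f x (A i x)` in the direction `η`
    have h3 : HasFDerivAt (fun x => fderiv ℂ f x (A i x))
        ((fderiv ℂ f ξ).comp (A i) + (fderiv ℂ (fderiv ℂ f) ξ).flip (A i ξ)) ξ :=
      hd.hasFDerivAt.clm_apply (A i).hasFDerivAt
    have h4 : (fun x => fderiv ℂ f x (A i x)) =ᶠ[nhds ξ] fun _ => (0 : ℂ) :=
      h1.mono fun y hy => hy i
    have h5 := h3.congr_of_eventuallyEq h4.symm
    have h6 := h5.unique (hasFDerivAt_const (0 : ℂ) ξ)
    have h7 := congrArg (fun L : E →L[ℂ] ℂ => L η) h6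
    have h8 : fderiv ℂ (fderiv ℂ f) ξ η (A i ξ) = 0 := by
      simpa [hη i] using h7
    have hsymm : fderiv ℂ (fderiv ℂ f) ξ (A i ξ) η = fderiv ℂ (fderiv ℂ f) ξ η (A i ξ) := by
      have hs : IsSymmSndFDerivAt ℂ f ξ :=
        (h2.contDiffAt (n := ⊤)).isSymmSndFDerivAt (by simp)
      exact hs.eq (A i ξ) η
    have h9 : fderiv ℂ (fun x => fderiv ℂ f x η) ξ (A i ξ) =
        fderiv ℂ (fderiv ℂ f) ξ (A i ξ) η := by
      have h10 : HasFDerivAt (fun x => fderiv ℂ f x η)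
          ((fderiv ℂ (fderiv ℂ f) ξ).flip η) ξ := by
        have := hd.hasFDerivAt.clm_apply (hasFDerivAt_const η ξ)
        simpa using this
      rw [h10.fderiv]
      rfl
    rw [h9, hsymm, h8]

end Pool.MFM
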