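import Pool.Agent.H51.MFM.S

set_option autoImplicit false

open Module MvPolynomial

namespace Pool.MFM

open Pool.MFQ

namespace H61DVU

variable {σ τ U : Type} [Fintype τ] [Ring U] [Algebra ℂ U] (O : Ore σ τ U)

lemma Ns_eq (W : MvPolynomial τ (MvPolynomial σ ℂ)) (T : Finset (τ →₀ ℕ)) (h : W.support ⊆ T) :
    Ns O W = ∑ α ∈ T, O.e (coeff α W) * sym O.x α := by
  refine Finset.sum_subset h fun α _ hα => ?_
  rw [notMem_support_iff.1 hα, map_zero, zero_mul]

lemma Ns_add (V W : MvPolynomial τ (MvPolynomial σ ℂ)) : Ns O (V + W) = Ns O V + Ns O W := by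
  classical
  rw [Ns_eq O (V + W) (V.support ∪ W.support) support_add,
    Ns_eq O V (V.support ∪ W.support) Finset.subset_union_left,
    Ns_eq O W (V.support ∪ W.support) Finset.subset_union_right, ← Finset.sum_add_distrib]
  refine Finset.sum_congr rfl fun α _ => ?_
  rw [coeff_add, map_add, add_mul]

lemma Ns_zero : Ns O (0 : MvPolynomial τ (MvPolynomial σ ℂ)) = 0 := by
  simp [Ns]

lemma Ns_sum {J : Type} (S : Finset J) (W : J → MvPolynomial τ (MvPolynomial σ ℂ)) :
    Ns O (∑ j ∈ S, W j) = ∑ j ∈ S, Ns O (W j) := by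
  classical
  induction S using Finset.induction_on with
  | empty => simp [Ns_zero]
  | insert a S ha ih => rw [Finset.sum_insert ha, Finset.sum_insert ha, Ns_add, ih]

lemma Ns_C_mul (c : MvPolynomial σ ℂ) (W : MvPolynomial τ (MvPolynomial σ ℂ)) :
    Ns O (C c * W) = O.e c * Ns O W := by
  classical
  have h : (C c * W).support ⊆ W.support := by
    intro α hα
    rw [MvPolynomial.mem_support_iff, coeff_C_mul] at hα
    exact MvPolynomial.mem_support_iff.2 (right_ne_zero_of_mul hα)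
  rw [Ns_eq O (C c * W) W.support h]
  unfold Ns
  rw [Finset.mul_sum]
  refine Finset.sum_congr rfl fun α _ => ?_
  rw [coeff_C_mul, map_mul, mul_assoc]

lemma li_sum {ι : Type} [Fintype ι] (s : ι → ℂ) (P : ι → Lm σ τ) :
    li O (∑ a, s a • P a) = ∑ a, s a • li O (P a) := by
  unfold li
  simp only [Prod.fst_sum, Prod.snd_sum, Prod.smul_fst, Prod.smul_snd, map_sum, map_smul,
    Finset.sum_apply, Pi.smul_apply, Finset.sum_mul, smul_mul_assoc, smul_add,
    Finset.sum_add_distrib, Finset.smul_sum]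
  congr 1
  rw [Finset.sum_comm]

lemma const_sum {ι : Type} [Fintype ι] (D : τ → Derivation ℂ (MvPolynomial σ ℂ) (MvPolynomial σ ℂ))
    (s : ι → ℂ) (P : ι → Lm σ τ) (h : ∀ a b i, dvG D (P a) ((P b).2 i) = 0) (i : τ) :
    dvG D (∑ a, s a • P a) ((∑ a, s a • P a).2 i) = 0 := by
  unfold dvG at h ⊢
  simp only [Prod.snd_sum, Prod.smul_snd, Finset.sum_apply, Pi.smul_apply, map_sum, Derivation.map_smul]
  have e : ∀ k, (∑ a, s a • (P a).2 k) * ∑ b, s b • (D k) ((P b).2 i) =
      ∑ a, ∑ b, (s a * s b) • ((P a).2 k * (D k) ((P b).2 i)) := by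
    intro k
    rw [Finset.sum_mul_sum]
    refine Finset.sum_congr rfl fun a _ => Finset.sum_congr rfl fun b _ => ?_
    rw [smul_mul_smul_comm]
  rw [Finset.sum_congr rfl fun k _ => e k, Finset.sum_comm]
  refine Finset.sum_eq_zero fun a _ => ?_
  rw [Finset.sum_comm]
  refine Finset.sum_eq_zero fun b _ => ?_
  rw [← Finset.smul_sum, h a b i, smul_zero]

end H61DVU

open H61DVU in
theorem t_dvu (hUPW : UPWStmt) (hDIV : DIVStmt) : DVUStmt := by
  classical
  intro σ τ ι J U _ _ _ _ _ _ O P Δ N c s n F h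
  choose G hG using hDIV σ τ ι J O.D O.β P Δ N c s n F h
  set M := Finset.univ.sup n with hM
  refine ⟨Ns O (∑ i ∈ Finset.range (M + 1), G i), ?_⟩
  have e1 : ∀ j, O.e (c j) * (∑ a, s j a • li O (P a)) ^ n j =
      Ns O (∑ i ∈ Finset.range (M + 1), C (c j) * wL O.D (∑ a, s j a • P a) (n j) i) := by
    intro j
    rw [← li_sum, hUPW σ τ U O (∑ a, s j a • P a) (const_sum O.D (s j) P h.const) (n j) M
      (Finset.le_sup (Finset.mem_univ j)), ← Ns_C_mul, Finset.mul_sum]
  rw [Finset.sum_congr rfl fun j _ => e1 j, ← Ns_sum, Finset.sum_comm,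
    Finset.sum_congr rfl fun i _ => hG i, ← Finset.mul_sum, Ns_C_mul]

end Pool.MFM
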