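import Pool.Agent.H51.MFM.S

set_option autoImplicit false

open Module MvPolynomial

namespace Pool.MFM

open Pool.MFQ

namespace H61

variable {O K ι : Type} [CommRing O] [CommRing K] [Algebra O K]

/-- the coefficients are integral -/
def IntP (O : Type) {K ι : Type} [CommRing O] [CommRing K] [Algebra O K]
    (F : MvPolynomial ι K) : Prop :=
  ∀ γ, ∃ r : O, coeff γ F = algebraMap O K r

lemma IntP.add {F G : MvPolynomial ι K} (hF : IntP O F) (hG : IntP O G) : IntP O (F + G) := by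
  intro γ
  obtain ⟨r, hr⟩ := hF γ
  obtain ⟨s, hs⟩ := hG γ
  exact ⟨r + s, by rw [coeff_add, hr, hs, map_add]⟩

lemma IntP.sub {F G : MvPolynomial ι K} (hF : IntP O F) (hG : IntP O G) : IntP O (F - G) := by
  intro γ
  obtain ⟨r, hr⟩ := hF γ
  obtain ⟨s, hs⟩ := hG γ
  exact ⟨r - s, by rw [coeff_sub, hr, hs, map_sub]⟩

lemma IntP.sum {A : Type} (S : Finset A) {F : A → MvPolynomial ι K}
    (h : ∀ a ∈ S, IntP O (F a)) : IntP O (∑ a ∈ S, F a) := by
  classical
  induction S using Finset.induction_on with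
  | empty => intro γ; exact ⟨0, by simp⟩
  | insert a S ha ih =>
    rw [Finset.sum_insert ha]
    exact (h a (Finset.mem_insert_self _ _)).add (ih fun b hb => h b (Finset.mem_insert_of_mem hb))

lemma IntP.pderiv {F : MvPolynomial ι K} (hF : IntP O F) (i : ι) :
    IntP O (MvPolynomial.pderiv i F) := by
  intro γ
  obtain ⟨r, hr⟩ := hF (γ + Finsupp.single i 1)
  exact ⟨r * (γ i + 1), by rw [coeff_pderiv, hr]; simp⟩

lemma smul_map [Algebra ℂ O] [Algebra ℂ K] [IsScalarTower ℂ O K] (c : ℂ) (r : O) :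
    c • algebraMap O K r = algebraMap O K (c • r) := by
  rw [Algebra.algebraMap_eq_smul_one, Algebra.algebraMap_eq_smul_one, smul_assoc]

lemma IntP.smul [Algebra ℂ O] [Algebra ℂ K] [IsScalarTower ℂ O K] {F : MvPolynomial ι K}
    (hF : IntP O F) (c : ℂ) : IntP O (c • F) := by
  intro γ
  obtain ⟨r, hr⟩ := hF γ
  exact ⟨c • r, by rw [coeff_smul, hr, smul_map]⟩

lemma IntP.lift {F : MvPolynomial ι K} (hF : IntP O F) :
    ∃ F' : MvPolynomial ι O, map (algebraMap O K) F' = F := by
  classical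
  choose r hr using hF
  refine ⟨∑ γ ∈ F.support, monomial γ (r γ), ?_⟩
  rw [map_sum]
  conv_rhs => rw [F.as_sum]
  refine Finset.sum_congr rfl fun γ _ => ?_
  rw [map_monomial, hr γ]

/-- the quotient -/
abbrev Q (O K : Type) [CommRing O] [CommRing K] [Algebra O K] : Type :=
  K ⧸ (LinearMap.range (Algebra.linearMap O K))

/-- the class -/
abbrev mk (O : Type) {K : Type} [CommRing O] [CommRing K] [Algebra O K] (x : K) : Q O K :=
  Submodule.Quotient.mk x

lemma mk_eq_zero (x : K) : mk O x = 0 ↔ ∃ r : O, x = algebraMap O K r := by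
  rw [Submodule.Quotient.mk_eq_zero, LinearMap.mem_range]
  constructor
  · rintro ⟨r, hr⟩
    exact ⟨r, by rw [← hr, Algebra.linearMap_apply]⟩
  · rintro ⟨r, hr⟩
    exact ⟨r, by rw [hr, Algebra.linearMap_apply]⟩

variable [Algebra ℂ O] [Algebra ℂ K]

/-- the induced operator -/
noncomputable def DQ (O : Type) {K : Type} [CommRing O] [CommRing K] [Algebra O K] [Algebra ℂ K]
    (δ : Derivation ℂ K K) (m : Q O K) : Q O K :=
  mk O (δ (Quotient.out m))

lemma DQ_mk (δ : Derivation ℂ K K) (d : Derivation ℂ O O)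
    (h : ∀ a, δ (algebraMap O K a) = algebraMap O K (d a)) (x : K) :
    DQ O δ (mk O x) = mk O (δ x) := by
  unfold DQ
  have h1 : mk O (Quotient.out (mk O x)) = mk O x := Quotient.out_eq _
  rw [← sub_eq_zero, ← Submodule.Quotient.mk_sub] at h1
  obtain ⟨r, hr⟩ := (mk_eq_zero _).1 h1
  rw [← sub_eq_zero, ← Submodule.Quotient.mk_sub, ← map_sub, hr, h]
  exact (mk_eq_zero _).2 ⟨_, rfl⟩

omit [Algebra ℂ O] [Algebra ℂ K] in
lemma mk_smul_eq (a : O) (x : K) : mk O (algebraMap O K a * x) = a • mk O x := by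
  rw [← Submodule.Quotient.mk_smul, Algebra.smul_def]

/-- the module with operators -/
noncomputable def S (δ : ι → Derivation ℂ K K) (d : ι → Derivation ℂ O O) (g : ι → K)
    (hδ : ∀ i a, δ i (algebraMap O K a) = algebraMap O K (d i a))
    (hc : ∀ i j x, δ i (δ j x) = δ j (δ i x))
    (hg : ∀ a b, ∃ r : O, δ a (g b) - δ b (g a) = algebraMap O K r) : DMod O (Q O K) ι where
  d i := d i
  D i := DQ O (δ i)
  g e := mk O (g e)
  d_add i a b := map_add _ _ _
  d_mul i a b := by
    rw [Derivation.leibniz, smul_eq_mul, smul_eq_mul]; ring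
  D_add i m m' := by
    obtain ⟨x, rfl⟩ := Submodule.Quotient.mk_surjective _ m
    obtain ⟨y, rfl⟩ := Submodule.Quotient.mk_surjective _ m'
    rw [← Submodule.Quotient.mk_add]
    change DQ O (δ i) (mk O (x + y)) = DQ O (δ i) (mk O x) + DQ O (δ i) (mk O y)
    rw [DQ_mk (δ i) (d i) (hδ i), DQ_mk (δ i) (d i) (hδ i), DQ_mk (δ i) (d i) (hδ i), map_add,
      ← Submodule.Quotient.mk_add]
  D_smul i a m := by
    obtain ⟨x, rfl⟩ := Submodule.Quotient.mk_surjective _ m
    change DQ O (δ i) (a • mk O x) = d i a • mk O x + a • DQ O (δ i) (mk O x)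
    rw [← mk_smul_eq, DQ_mk (δ i) (d i) (hδ i), DQ_mk (δ i) (d i) (hδ i), Derivation.leibniz, hδ,
      ← mk_smul_eq, ← mk_smul_eq, ← Submodule.Quotient.mk_add, smul_eq_mul, smul_eq_mul]
    congr 1
    ring
  D_comm i j m := by
    obtain ⟨x, rfl⟩ := Submodule.Quotient.mk_surjective _ m
    change DQ O (δ i) (DQ O (δ j) (mk O x)) = DQ O (δ j) (DQ O (δ i) (mk O x))
    rw [DQ_mk (δ j) (d j) (hδ j), DQ_mk (δ i) (d i) (hδ i), DQ_mk (δ i) (d i) (hδ i),
      DQ_mk (δ j) (d j) (hδ j), hc]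
  sym i j := by
    rw [DQ_mk (δ i) (d i) (hδ i), DQ_mk (δ j) (d j) (hδ j), ← sub_eq_zero,
      ← Submodule.Quotient.mk_sub]
    exact (mk_eq_zero _).2 (hg i j)

section Words

variable (δ : ι → Derivation ℂ K K)

omit [CommRing O] [Algebra O K] [Algebra ℂ O] in
lemma itD_comm (hc : ∀ i j x, δ i (δ j x) = δ j (δ i x)) (a : ι) (L : List ι) (x : K) :
    δ a (itD (fun i => ⇑(δ i)) L x) = itD (fun i => ⇑(δ i)) L (δ a x) := by
  induction L with
  | nil => rfl
  | cons b L ih =>
    simp only [itD]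
    rw [hc, ih]

omit [CommRing O] [Algebra O K] [Algebra ℂ O] in
lemma itD_sub (L : List ι) (x y : K) :
    itD (fun i => ⇑(δ i)) L (x - y) =
      itD (fun i => ⇑(δ i)) L x - itD (fun i => ⇑(δ i)) L y := by
  induction L with
  | nil => rfl
  | cons b L ih => simp only [itD, ih, map_sub]

lemma itD_alg (d : ι → Derivation ℂ O O)
    (hδ : ∀ i a, δ i (algebraMap O K a) = algebraMap O K (d i a)) (L : List ι) (r : O) :
    ∃ r', itD (fun i => ⇑(δ i)) L (algebraMap O K r) = algebraMap O K r' := by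
  induction L with
  | nil => exact ⟨r, rfl⟩
  | cons b L ih =>
    obtain ⟨r', h⟩ := ih
    exact ⟨d b r', by simp only [itD, h, hδ]⟩

lemma total_symm (d : ι → Derivation ℂ O O) (g : ι → K)
    (hδ : ∀ i a, δ i (algebraMap O K a) = algebraMap O K (d i a))
    (hc : ∀ i j x, δ i (δ j x) = δ j (δ i x))
    (hg : ∀ a b, ∃ r : O, δ a (g b) - δ b (g a) = algebraMap O K r) (L : List ι) (a e : ι) :
    ∃ r : O, δ a (itD (fun i => ⇑(δ i)) L (g e)) =
      itD (fun i => ⇑(δ i)) (e :: L) (g a) + algebraMap O K r := by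
  obtain ⟨r, hr⟩ := hg a e
  obtain ⟨r', hr'⟩ := itD_alg δ d hδ L r
  refine ⟨r', ?_⟩
  simp only [itD]
  rw [itD_comm δ hc, itD_comm δ hc, ← hr', ← hr, itD_sub]
  ring

lemma itD_mk (d : ι → Derivation ℂ O O) (g : ι → K)
    (hδ : ∀ i a, δ i (algebraMap O K a) = algebraMap O K (d i a))
    (hc : ∀ i j x, δ i (δ j x) = δ j (δ i x))
    (hg : ∀ a b, ∃ r : O, δ a (g b) - δ b (g a) = algebraMap O K r) (L : List ι) (x : K) :
    itD (S δ d g hδ hc hg).D L (mk O x) = mk O (itD (fun i => ⇑(δ i)) L x) := by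
  induction L with
  | nil => rfl
  | cons b L ih =>
    simp only [itD, ih]
    exact DQ_mk (δ b) (d b) (hδ b) _

end Words

omit [Algebra ℂ O] [Algebra ℂ K] in
lemma map_itP (L : List ι) (F : MvPolynomial ι O) :
    map (algebraMap O K) (itP L F) = itP L (map (algebraMap O K) F) := by
  induction L with
  | nil => rfl
  | cons b L ih =>
    have e : ∀ (R : Type) [CommRing R] (G : MvPolynomial ι R),
        itP (b :: L) G = pderiv b (itP L G) := fun _ _ _ => rfl
    rw [e, e, ← ih, pderiv_map]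

/-- integrality of the operators -/
lemma aop_int [Fintype ι] (hLMA : LMAStmt) [IsDomain O] [IsPrincipalIdealRing O]
    (δ : ι → Derivation ℂ K K) (d : ι → Derivation ℂ O O) (g : ι → K)
    (hδ : ∀ i a, δ i (algebraMap O K a) = algebraMap O K (d i a))
    (hc : ∀ i j x, δ i (δ j x) = δ j (δ i x)) (htot : ∀ a b : O, a ∣ b ∨ b ∣ a)
    (hdiv : ∀ (a : O) i, ∃ b, d i a = a * b)
    (hg : ∀ a b, ∃ r : O, δ a (g b) - δ b (g a) = algebraMap O K r)
    (F : MvPolynomial ι K) (hF : IntP O F) (h0 : ∀ a, IntP O (Aop δ g 0 a F)) (k : ℕ) (a : ι) :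
    IntP O (Aop δ g k a F) := by
  classical
  obtain ⟨F', rfl⟩ := hF.lift
  have hco : ∀ (L : List ι) (γ : ι →₀ ℕ), coeff γ (itP L (map (algebraMap O K) F')) =
      algebraMap O K (coeff γ (itP L F')) := by
    intro L γ
    rw [← map_itP, coeff_map]
  have hpd : ∀ (L : List ι) (e : ι) (γ : ι →₀ ℕ),
      coeff γ (pderiv e (itP L (map (algebraMap O K) F'))) =
      algebraMap O K (coeff γ (itP (e :: L) F')) := fun L e γ => hco (e :: L) γ
  have key := hLMA O (Q O K) ι (S δ d g hδ hc hg) htot hdiv F' ?_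
  · -- the general operator
    rcases k with _ | k
    · exact h0 a
    intro γ
    have hk := key (k + 1) γ a
    have e1 : ∀ b : Fin (k + 1 + 1) → ι,
        coeff γ (itP (List.ofFn b) F') • itD (S δ d g hδ hc hg).D (List.ofFn b)
          ((S δ d g hδ hc hg).g a) =
        mk O (algebraMap O K (coeff γ (itP (List.ofFn b) F')) *
          itD (fun i => ⇑(δ i)) (List.ofFn b) (g a)) := by
      intro b
      rw [mk_smul_eq]
      congr 1
      exact itD_mk δ d g hδ hc hg (List.ofFn b) (g a)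
    rw [Finset.sum_congr rfl fun b _ => e1 b] at hk
    have e2 : ∀ (T : Finset (Fin (k + 1 + 1) → ι)) (f : (Fin (k + 1 + 1) → ι) → K),
        ∑ b ∈ T, mk O (f b) = mk O (∑ b ∈ T, f b) := by
      intro T f
      exact (map_sum (Submodule.mkQ (LinearMap.range (Algebra.linearMap O K))) f T).symm
    rw [e2] at hk
    obtain ⟨r0, hr0⟩ := (mk_eq_zero _).1 hk
    choose rr hrr using fun (L : List ι) (e : ι) => total_symm δ d g hδ hc hg L a e
    have e3 : coeff γ (Aop δ g (k + 1) a (map (algebraMap O K) F')) =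
        ∑ b : Fin (k + 1) → ι, ∑ e, (algebraMap O K (coeff γ (itP (e :: List.ofFn b) F')) *
          itD (fun i => ⇑(δ i)) (e :: List.ofFn b) (g a) +
          algebraMap O K (rr (List.ofFn b) e * coeff γ (itP (e :: List.ofFn b) F'))) := by
      unfold Aop
      rw [coeff_sum]
      refine Finset.sum_congr rfl fun b _ => ?_
      rw [coeff_sum]
      refine Finset.sum_congr rfl fun e _ => ?_
      rw [coeff_C_mul, hpd, hrr, map_mul]
      ring
    have e4 : ∑ b : Fin (k + 1 + 1) → ι, algebraMap O K (coeff γ (itP (List.ofFn b) F')) *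
        itD (fun i => ⇑(δ i)) (List.ofFn b) (g a) =
        ∑ b : Fin (k + 1) → ι, ∑ e, algebraMap O K (coeff γ (itP (e :: List.ofFn b) F')) *
          itD (fun i => ⇑(δ i)) (e :: List.ofFn b) (g a) := by
      rw [← (Fin.consEquiv (fun _ : Fin (k + 1 + 1) => ι)).sum_comp, Fintype.sum_prod_type,
        Finset.sum_comm]
      refine Finset.sum_congr rfl fun b _ => Finset.sum_congr rfl fun e _ => ?_
      have : List.ofFn ((Fin.consEquiv (fun _ : Fin (k + 1 + 1) => ι)) (e, b)) =
          e :: List.ofFn b := List.ofFn_cons e b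
      rw [this]
    refine ⟨r0 + ∑ b : Fin (k + 1) → ι, ∑ e,
      rr (List.ofFn b) e * coeff γ (itP (e :: List.ofFn b) F'), ?_⟩
    rw [e3, map_add, ← hr0, e4, map_sum]
    rw [← Finset.sum_add_distrib]
    refine Finset.sum_congr rfl fun b _ => ?_
    rw [Finset.sum_add_distrib, map_sum]
  · -- the condition of LMA
    intro γ c
    obtain ⟨r, hr⟩ := h0 c γ
    have e0 : coeff γ (Aop δ g 0 c (map (algebraMap O K) F')) =
        ∑ e, δ c (g e) * algebraMap O K (coeff γ (pderiv e F')) := by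
      unfold Aop
      rw [Fintype.sum_unique, coeff_sum]
      refine Finset.sum_congr rfl fun e _ => ?_
      rw [coeff_C_mul]
      exact congrArg₂ (· * ·) rfl (hpd [] e γ)
    rw [e0] at hr
    choose rr hrr using fun (e : ι) => hg c e
    have e1 : ∀ b : ι, coeff γ (pderiv b F') • (S δ d g hδ hc hg).D b ((S δ d g hδ hc hg).g c) =
        mk O (algebraMap O K (coeff γ (pderiv b F')) * δ b (g c)) := by
      intro b
      rw [mk_smul_eq]
      congr 1
      exact DQ_mk (δ b) (d b) (hδ b) _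
    rw [Finset.sum_congr rfl fun b _ => e1 b]
    have e2 : ∀ (T : Finset ι) (f : ι → K), ∑ b ∈ T, mk O (f b) = mk O (∑ b ∈ T, f b) := by
      intro T f
      exact (map_sum (Submodule.mkQ (LinearMap.range (Algebra.linearMap O K))) f T).symm
    rw [e2]
    refine (mk_eq_zero _).2 ⟨r - ∑ e, rr e * coeff γ (pderiv e F'), ?_⟩
    rw [map_sub, ← hr, map_sum, ← Finset.sum_sub_distrib]
    refine Finset.sum_congr rfl fun e _ => ?_
    rw [map_mul, ← hrr]
    ring

lemma dcM_int (δ : Derivation ℂ K K) (d : Derivation ℂ O O)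
    (h : ∀ a, δ (algebraMap O K a) = algebraMap O K (d a)) {F : MvPolynomial ι K}
    (hF : IntP O F) : IntP O (dcM δ F) := by
  classical
  refine IntP.sum _ fun γ _ => ?_
  intro m
  obtain ⟨r, hr⟩ := hF γ
  rw [coeff_monomial]
  split_ifs
  · exact ⟨d r, by rw [hr, h]⟩
  · exact ⟨0, by simp⟩

end H61

open H61 in
theorem t_ilb (hILA : ILAStmt) (hLMA : LMAStmt) : ILBStmt := by
  intro O K ι J _ _ _ _ _ _ _ _ _ _ δ d g c s n hinj hδ hc htot hdiv hg hcc hcs h0
  obtain ⟨h1, h2⟩ := hILA K ι J δ g c s n hc hcc hcs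
  have main : ∀ i, ∀ j ≤ i, IntP O (Wp δ g c s n j) ∧ ∀ a, IntP O (Aop δ g 0 a (Wp δ g c s n j)) := by
    intro i
    induction i with
    | zero =>
      intro j hj
      obtain rfl : j = 0 := Nat.le_zero.1 hj
      refine ⟨h0, fun a => ?_⟩
      have := h1 0 a
      rw [Finset.sum_range_one] at this
      simp only [zero_add, Nat.factorial_one, Nat.cast_one, inv_one, one_smul, Nat.sub_self] at this
      rw [← this]
      exact dcM_int (δ a) (d a) (hδ a) h0
    | succ i ih =>
      intro j hj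
      rcases Nat.lt_or_ge j (i + 1) with hlt | hge
      · exact ih j (Nat.lt_succ_iff.1 hlt)
      obtain rfl : j = i + 1 := le_antisymm hj hge
      have hA : ∀ k, ∀ l ≤ i, ∀ a, IntP O (Aop δ g k a (Wp δ g c s n l)) := by
        intro k l hl a
        exact aop_int hLMA δ d g hδ hc htot hdiv hg _ (ih l hl).1 (ih l hl).2 k a
      have hW : IntP O (Wp δ g c s n (i + 1)) := by
        have h3 : IntP O (((i + 1 : ℕ) : ℂ) • Wp δ g c s n (i + 1)) := by
          rw [h2 i]
          refine IntP.sum _ fun k _ => IntP.smul ?_ _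
          refine IntP.sum _ fun a _ => IntP.pderiv ?_ a
          exact hA k (i - k) (Nat.sub_le _ _) a
        have h4 := h3.smul (((i + 1 : ℕ) : ℂ)⁻¹)
        rwa [smul_smul, inv_mul_cancel₀ (by exact_mod_cast Nat.succ_ne_zero i), one_smul] at h4
      refine ⟨hW, fun a => ?_⟩
      have h5 := h1 (i + 1) a
      rw [Finset.sum_range_succ'] at h5
      simp only [zero_add, Nat.factorial_one, Nat.cast_one, inv_one, one_smul, Nat.sub_zero] at h5
      have h6 : Aop δ g 0 a (Wp δ g c s n (i + 1)) = dcM (δ a) (Wp δ g c s n (i + 1)) -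
          ∑ k ∈ Finset.range (i + 1), ((((k + 1 + 1).factorial : ℕ) : ℂ)⁻¹) •
            Aop δ g (k + 1) a (Wp δ g c s n (i + 1 - (k + 1))) := by
        rw [h5]; ring
      rw [h6]
      refine (dcM_int (δ a) (d a) (hδ a) hW).sub ?_
      refine IntP.sum _ fun k _ => IntP.smul ?_ _
      exact hA (k + 1) (i + 1 - (k + 1)) (by omega) a
  intro i
  exact (main i i le_rfl).1

end Pool.MFM
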