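import Pool.Agent.H51.MFM.S

set_option autoImplicit false

open Module MvPolynomial

namespace Pool.MFM

open Pool.MFQ

namespace H61MFP

variable {𝔤 : Type} [LieRing 𝔤] [LieAlgebra ℂ 𝔤]

lemma evP_apply {κ : Type} (b : Basis κ ℂ 𝔤) (p : MvPolynomial κ ℂ) (ξ : Dual ℂ 𝔤) :
    evP b p ξ = eval (fun i => ξ (b i)) p := by
  unfold evP
  induction p using MvPolynomial.induction_on with
  | C a => simp
  | add p q hp hq => simp only [map_add, Pi.add_apply, hp, hq]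
  | mul_X p i hp => simp only [map_mul, Pi.mul_apply, hp, aeval_X, eval_X]

lemma evP_dualC {κ : Type} (b : Basis κ ℂ 𝔤) (p : MvPolynomial κ ℂ) (t : κ → ℂ) :
    evP b p (dualC b t) = eval t p := by
  rw [evP_apply]
  congr 2
  funext i
  unfold dualC
  exact b.constr_basis ℂ t i

end H61MFP

open H61MFP in
theorem t_mfp (hTR2 : TR2Stmt) (hTPH : TPHStmt) : MFPStmt := by
  intro 𝔤 _ _ κ _ b a
  rw [AlgHom.map_adjoin]
  refine hTR2 𝔤 κ b a _ ?_ ?_
  · rintro _ ⟨p, ⟨f, k, hf, hk, hp, hev⟩, rfl⟩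
    refine ⟨f, k, hf, hk, fun t => ?_⟩
    rw [evP_dualC, hev]
  · intro f k hf hk
    obtain ⟨p, hp, hev⟩ := hTPH κ ((dualC b).symm a) f k hf.1
    refine Algebra.subset_adjoin ⟨p, ⟨f, k, hf, hk, hp, hev⟩, ?_⟩
    funext ξ
    rw [hev]
    have := evP_dualC b p ((dualC b).symm ξ)
    rwa [LinearEquiv.apply_symm_apply] at this

end Pool.MFM
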