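import Pool.Agent.H51.MFM.S

set_option autoImplicit false

open Module MvPolynomial

namespace Pool.MFM

open Pool.MFQ

namespace H61PIV

/-- a nonsingular maximal minor (cf. H87/SG7/SPEC) -/
theorem exists_rows {k : Type} [Field k] {m n : Type} [Fintype m] [Fintype n] [DecidableEq m]
    [DecidableEq n] (P : Matrix m n k) (hP : ∀ v : n → k, P.mulVec v = 0 → v = 0) :
    ∃ e : n → m, (P.submatrix e id).det ≠ 0 := by
  classical
  have hinj : Function.Injective P.mulVecLin := by
    rw [injective_iff_map_eq_zero]
    intro v hv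
    exact hP v hv
  have hrank : Module.finrank k (LinearMap.range P.mulVecLin) = Fintype.card n := by
    rw [LinearMap.finrank_range_of_inj hinj, Module.finrank_fintype_fun_eq_card]
  have hspan : Submodule.span k (Set.range P.row) = ⊤ := by
    apply Submodule.eq_top_of_finrank_eq
    rw [← Matrix.rank_eq_finrank_span_row, Module.finrank_fintype_fun_eq_card]
    exact hrank
  obtain ⟨b, hb, hbs, hli⟩ := exists_linearIndependent k (Set.range P.row)
  have hbs' : ⊤ ≤ Submodule.span k (Set.range (Subtype.val : b → n → k)) := by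
    rw [Subtype.range_coe, hbs, hspan]
  let B : Module.Basis b k (n → k) := Module.Basis.mk hli hbs'
  let C : Module.Basis n k (n → k) := Pi.basisFun k n
  let eq : n ≃ b := C.indexEquiv B
  have hex : ∀ i : n, ∃ j : m, P.row j = (eq i : n → k) := by
    intro i
    obtain ⟨j, hj⟩ := hb (eq i).2
    exact ⟨j, hj⟩
  choose e he using hex
  refine ⟨e, ?_⟩
  have hli2 : LinearIndependent k (P.submatrix e id).row := by
    have h1 : (P.submatrix e id).row = fun i : n => ((eq i : b) : n → k) := by
      funext i
      rw [← he i]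
      rfl
    rw [h1]
    exact hli.comp eq eq.injective
  have hu := Matrix.linearIndependent_rows_iff_isUnit.mp hli2
  exact ((Matrix.isUnit_iff_isUnit_det _).mp hu).ne_zero

end H61PIV

open H61PIV in
theorem t_piv : PIVStmt := by
  classical
  intro K ι τ _ _ hdec _ I K₀ hI r hr hr0
  -- the minors
  let M : (ι → τ) → Matrix ι ι K := fun f => Matrix.of fun b c => r b (f c)
  obtain ⟨f0, hf0⟩ : ∃ f, (M f).det ≠ 0 := by
    obtain ⟨e, he⟩ := exists_rows (Matrix.of fun (t : τ) (a : ι) => r a t) (by
      intro v hv
      have h1 := Fintype.linearIndependent_iff.1 hr v (by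
        funext t
        have := congrFun hv t
        simp only [Matrix.mulVec, dotProduct, Matrix.of_apply, Pi.zero_apply] at this
        rw [Finset.sum_apply, Pi.zero_apply, ← this]
        refine Finset.sum_congr rfl fun a _ => ?_
        rw [Pi.smul_apply, smul_eq_mul, mul_comm])
      funext a
      exact h1 a)
    refine ⟨e, ?_⟩
    rw [← Matrix.det_transpose]
    exact he
  let A : ValuationSubring K := { I with mem_or_inv_mem' := hI }
  have : Nonempty (ι → τ) := ⟨f0⟩
  obtain ⟨f, hf⟩ := Finite.exists_max fun f : ι → τ => A.valuation (M f).det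
  have hv0 : A.valuation (M f).det ≠ 0 := by
    intro h
    have h1 := hf f0
    rw [h, le_zero_iff, Valuation.zero_iff] at h1
    exact hf0 h1
  have hdet : (M f).det ≠ 0 := by
    intro h
    rw [h, map_zero] at hv0
    exact hv0 rfl
  have hquot : ∀ f', (M f').det / (M f).det ∈ I := by
    intro f'
    have h1 : A.valuation ((M f').det / (M f).det) ≤ 1 := by
      rw [map_div₀]
      exact div_le_one_of_le₀ (hf f') zero_le
    exact (A.valuation_le_one_iff _).1 h1
  -- over the small field
  let M0 : Matrix ι ι K₀ := Matrix.of fun b c => ⟨r b (f c), hr0 b (f c)⟩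
  have hM0 : M0.map K₀.subtype = M f := by
    ext b c
    rfl
  have hdet0 : IsUnit M0.det := by
    rw [isUnit_iff_ne_zero]
    intro h
    apply hdet
    rw [← hM0]
    have := RingHom.map_det K₀.subtype M0
    rw [h, map_zero] at this
    exact this.symm
  have hNM : (M0⁻¹).map K₀.subtype * M f = 1 := by
    rw [← hM0, ← Matrix.map_mul, Matrix.nonsing_inv_mul _ hdet0]
    exact Matrix.map_one _ (map_zero _) (map_one _)
  have hMN : M f * (M0⁻¹).map K₀.subtype = 1 := by
    rw [← hM0, ← Matrix.map_mul, Matrix.mul_nonsing_inv _ hdet0]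
    exact Matrix.map_one _ (map_zero _) (map_one _)
  have hNinv : (M0⁻¹).map K₀.subtype = (M f)⁻¹ := (Matrix.inv_eq_left_inv hNM).symm
  refine ⟨f, (M0⁻¹).map K₀.subtype, M f, hNM, hMN, ?_, ?_, ?_⟩
  · intro a b
    exact ⟨(M0⁻¹ a b).2, hr0 a (f b)⟩
  · intro a i
    have h1 : ∑ b, (M0⁻¹).map K₀.subtype a b * r b i =
        (M (Function.update f a i)).det / (M f).det := by
      have h2 : ((M0⁻¹).map K₀.subtype).mulVec (fun b => r b i) a =
          (M (Function.update f a i)).det / (M f).det := by
        rw [hNinv, Matrix.inv_def, Ring.inverse_eq_inv', Matrix.smul_mulVec,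
          ← Matrix.cramer_eq_adjugate_mulVec, Pi.smul_apply, Matrix.cramer_apply, smul_eq_mul,
          div_eq_inv_mul]
        congr 2
        ext b c
        by_cases hc : c = a
        · subst hc
          simp [M]
        · simp [M, hc]
      exact h2
    rw [h1]
    exact hquot _
  · intro a c
    have := congrFun (congrFun hNM a) c
    rw [Matrix.mul_apply, Matrix.one_apply] at this
    exact this

end Pool.MFM
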