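import Pool.Agent.H51.MFM.S

set_option autoImplicit false

open Module MvPolynomial

namespace Pool.MFM

open Pool.MFQ

namespace H61POW

/-- extraction of the linear coefficient -/
lemma exists_lam (n : ℕ) : ∃ l : ℕ → ℂ, ∀ k ≤ n + 1,
    ∑ t ∈ Finset.range (n + 2), l t * (t : ℂ) ^ k = if k = 1 then 1 else 0 := by
  classical
  refine ⟨fun t => (Lagrange.basis (Finset.range (n + 2)) (fun t : ℕ => (t : ℂ)) t).coeff 1, ?_⟩
  intro k hk
  have hinj : Set.InjOn (fun t : ℕ => (t : ℂ)) (Finset.range (n + 2) : Finset ℕ) :=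
    fun a _ b _ h => Nat.cast_injective h
  have h := Lagrange.eq_interpolate (f := (Polynomial.X : Polynomial ℂ) ^ k) hinj (by
    rw [Polynomial.degree_X_pow, Finset.card_range]
    exact_mod_cast Nat.lt_succ_of_le hk)
  have h1 := congrArg (fun p => Polynomial.coeff p 1) h
  simp only [Lagrange.interpolate_apply, Polynomial.finsetSum_coeff, Polynomial.coeff_C_mul,
    Polynomial.eval_pow, Polynomial.eval_X, Polynomial.coeff_X_pow] at h1
  rw [Finset.sum_congr rfl fun t _ => mul_comm _ _, ← h1]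
  simp only [eq_comm]

variable {R ι : Type} [CommRing R] [Algebra ℂ R] [Fintype ι]

/-- a combination of powers -/
def Good (Q : MvPolynomial ι R) : Prop :=
  ∃ (J : Type) (_ : Fintype J) (c : J → R) (s : J → ι → ℂ) (n : J → ℕ),
    Q = ∑ j, C (c j) * (∑ a, s j a • X a) ^ n j

lemma Good.add {P Q : MvPolynomial ι R} (hP : Good P) (hQ : Good Q) : Good (P + Q) := by
  obtain ⟨J, _, c, s, n, rfl⟩ := hP
  obtain ⟨J', _, c', s', n', rfl⟩ := hQ
  refine ⟨J ⊕ J', inferInstance, Sum.elim c c', Sum.elim s s', Sum.elim n n', ?_⟩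
  rw [Fintype.sum_sum_type]
  rfl

omit [Fintype ι] in
/-- the identity -/
lemma pow_mul_X (L x : MvPolynomial ι R) (n : ℕ) (l : ℕ → ℂ) (hl : ∀ k ≤ n + 1,
    ∑ t ∈ Finset.range (n + 2), l t * (t : ℂ) ^ k = if k = 1 then 1 else 0) :
    ∑ t ∈ Finset.range (n + 2), (l t * ((n + 1 : ℕ) : ℂ)⁻¹) • ((t : ℂ) • x + L) ^ (n + 1) =
      L ^ n * x := by
  have e : ∀ t : ℕ, (l t * ((n + 1 : ℕ) : ℂ)⁻¹) • ((t : ℂ) • x + L) ^ (n + 1) =
      ∑ k ∈ Finset.range (n + 2), (l t * (t : ℂ) ^ k) •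
        ((((n + 1 : ℕ) : ℂ)⁻¹ * ((n + 1).choose k : ℂ)) • (x ^ k * L ^ (n + 1 - k))) := by
    intro t
    rw [add_pow, Finset.smul_sum]
    refine Finset.sum_congr rfl fun k _ => ?_
    have : ((n + 1).choose k : MvPolynomial ι R) = ((n + 1).choose k : ℂ) • 1 := by
      rw [Nat.cast_smul_eq_nsmul, nsmul_eq_mul, mul_one]
    rw [this, smul_pow, smul_mul_assoc, smul_mul_smul_comm, mul_one, smul_smul, smul_smul]
    congr 1
    ring
  rw [Finset.sum_congr rfl fun t _ => e t, Finset.sum_comm]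
  have e2 : ∀ k ∈ Finset.range (n + 2), ∑ t ∈ Finset.range (n + 2), (l t * (t : ℂ) ^ k) •
        ((((n + 1 : ℕ) : ℂ)⁻¹ * ((n + 1).choose k : ℂ)) • (x ^ k * L ^ (n + 1 - k))) =
      (if k = 1 then (1 : ℂ) else 0) •
        ((((n + 1 : ℕ) : ℂ)⁻¹ * ((n + 1).choose k : ℂ)) • (x ^ k * L ^ (n + 1 - k))) := by
    intro k hk
    rw [← Finset.sum_smul, hl k (by have := Finset.mem_range.1 hk; omega)]
  rw [Finset.sum_congr rfl e2, Finset.sum_eq_single 1]
  · rw [if_pos rfl, one_smul, Nat.choose_one_right, inv_mul_cancel₀, one_smul, pow_one,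
      Nat.add_sub_cancel, mul_comm]
    exact_mod_cast Nat.succ_ne_zero n
  · intro k _ hk
    rw [if_neg hk, zero_smul]
  · intro h
    exact absurd (Finset.mem_range.2 (by omega)) h

lemma Good.mul_X {P : MvPolynomial ι R} (hP : Good P) (a : ι) : Good (P * X a) := by
  classical
  obtain ⟨J, _, c, s, n, rfl⟩ := hP
  choose l hl using exists_lam
  refine ⟨(Σ j : J, Fin (n j + 2)), inferInstance,
    fun p => algebraMap ℂ R (l (n p.1) (p.2 : ℕ) * ((n p.1 + 1 : ℕ) : ℂ)⁻¹) * c p.1,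
    fun p b => s p.1 b + if b = a then ((p.2 : ℕ) : ℂ) else 0, fun p => n p.1 + 1, ?_⟩
  rw [Finset.sum_mul, Fintype.sum_sigma]
  refine Finset.sum_congr rfl fun j _ => ?_
  rw [mul_assoc, ← pow_mul_X (∑ a, s j a • X a) (X a) (n j) (l (n j)) (hl (n j)), Finset.mul_sum,
    Finset.sum_range]
  refine Finset.sum_congr rfl fun t _ => ?_
  have e1 : (∑ b, (s j b + if b = a then ((t : ℕ) : ℂ) else 0) • (X b : MvPolynomial ι R)) =
      ((t : ℕ) : ℂ) • X a + ∑ b, s j b • X b := by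
    simp only [add_smul, Finset.sum_add_distrib, ite_smul, zero_smul, Finset.sum_ite_eq',
      Finset.mem_univ, if_true]
    rw [add_comm]
  rw [e1, C_mul, ← MvPolynomial.algebraMap_eq, ← IsScalarTower.algebraMap_apply,
    Algebra.smul_def]
  ring

end H61POW

open H61POW in
theorem t_pow : POWStmt := by
  intro R ι _ _ _ Q
  have h : Good Q := by
    induction Q using MvPolynomial.induction_on with
    | C r => exact ⟨Unit, inferInstance, fun _ => r, fun _ _ => 0, fun _ => 0, by simp⟩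
    | add p q hp hq => exact hp.add hq
    | mul_X p i hp => exact hp.mul_X i
  obtain ⟨J, _, c, s, n, hQ⟩ := h
  refine ⟨Fintype.card J, c ∘ (Fintype.equivFin J).symm, s ∘ (Fintype.equivFin J).symm,
    n ∘ (Fintype.equivFin J).symm, ?_⟩
  rw [hQ]
  exact (Equiv.sum_comp (Fintype.equivFin J).symm
    (fun j => C (c j) * (∑ a, s j a • X a) ^ n j)).symm

end Pool.MFM
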